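import Mathlib

/-! Frequencies with prescribed small divisors, for every irrational number. -/

namespace Pool.Agent.KS6_84.BesH

open Filter Topology

/-- For every irrational `α` and every `n` there is a positive integer `Q` such that the signed
distance `e` of `Q α` to the nearest integer has absolute value in
`(2^{-(n+2)}, 2^{-(n+1)}]`, and `Q` is at most `2^{(n+1)τ}/c` if `|qα - m| ≥ c/q^τ` for all `q ≥ 1`. -/
lemma exists_freq {α : ℝ} (hα : Irrational α) (n : ℕ) : ∃ (Q : ℕ) (e : ℝ) (m : ℤ), 0 < Q ∧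
    (Q : ℝ) * α = e + m ∧ (1 / 2 : ℝ) ^ (n + 2) < |e| ∧ |e| ≤ (1 / 2 : ℝ) ^ (n + 1) ∧
    ∀ τ c : ℝ, 0 < c → 0 ≤ τ → (∀ (q : ℕ) (m : ℤ), 1 ≤ q → c / (q : ℝ) ^ τ ≤ |(q : ℝ) * α - m|) →
      (Q : ℝ) ≤ ((2 : ℝ) ^ τ) ^ (n + 1) / c := by
  obtain ⟨k, hk0, hkN, hk⟩ := Real.exists_nat_abs_mul_sub_round_le α (n := 2 ^ (n + 1)) (by positivity)
  set ε : ℝ := k * α - round (k * α) with hε
  have hε0 : ε ≠ 0 := by
    intro h
    have h1 : (k : ℝ) * α = round ((k : ℝ) * α) := by linarith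
    exact (hα.natCast_mul hk0.ne').ne_int _ h1
  have hε1 : 0 < |ε| := abs_pos.2 hε0
  have ht : (0 : ℝ) < (1 / 2 : ℝ) ^ (n + 1) := by positivity
  have hle : |ε| ≤ (1 / 2 : ℝ) ^ (n + 1) := by
    refine hk.trans ?_
    rw [one_div_pow]
    apply one_div_le_one_div_of_le (by positivity)
    push_cast
    linarith
  set j : ℕ := ⌊(1 / 2 : ℝ) ^ (n + 1) / |ε|⌋₊ with hj
  have hj1 : 1 ≤ j := by
    rw [hj, Nat.one_le_floor_iff, le_div_iff₀ hε1, one_mul]
    exact hle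
  have hj2 : (j : ℝ) * |ε| ≤ (1 / 2 : ℝ) ^ (n + 1) := by
    rw [← le_div_iff₀ hε1]
    exact Nat.floor_le (by positivity)
  have hj3 : (1 / 2 : ℝ) ^ (n + 1) < (j + 1) * |ε| := by
    rw [← div_lt_iff₀ hε1]
    exact Nat.lt_floor_add_one _
  have hj1' : (1 : ℝ) ≤ j := by exact_mod_cast hj1
  refine ⟨j * k, j * ε, j * round ((k : ℝ) * α), by positivity, ?_, ?_, ?_, ?_⟩
  · rw [hε]; push_cast; ring
  · rw [abs_mul, Nat.abs_cast, pow_succ]
    nlinarith
  · rw [abs_mul, Nat.abs_cast]; exact hj2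
  · intro τ c hc hτ hd
    have h1 : c / (k : ℝ) ^ τ ≤ |ε| := hd k _ hk0
    have hk' : (0 : ℝ) < k := by exact_mod_cast hk0
    have hkτ : 0 < (k : ℝ) ^ τ := Real.rpow_pos_of_pos hk' _
    have h2 : c ≤ |ε| * (k : ℝ) ^ τ := by rwa [div_le_iff₀ hkτ] at h1
    have h3 : (k : ℝ) ≤ 2 ^ (n + 1) := by exact_mod_cast hkN
    have h4 : (k : ℝ) ^ τ ≤ ((2 : ℝ) ^ τ) ^ (n + 1) := by
      calc (k : ℝ) ^ τ ≤ ((2 : ℝ) ^ (n + 1)) ^ τ := Real.rpow_le_rpow hk'.le h3 hτ
        _ = _ := by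
          rw [← Real.rpow_natCast, ← Real.rpow_natCast, ← Real.rpow_mul (by norm_num),
            ← Real.rpow_mul (by norm_num), mul_comm]
    rw [le_div_iff₀ hc]
    push_cast
    have hh : (1 / 2 : ℝ) ^ (n + 1) * 2 ^ (n + 1) = 1 := by
      rw [← mul_pow]; norm_num
    calc (j : ℝ) * k * c ≤ j * k * (|ε| * (k : ℝ) ^ τ) := by gcongr
      _ = (j * |ε|) * k * (k : ℝ) ^ τ := by ring
      _ ≤ (1 / 2 : ℝ) ^ (n + 1) * 2 ^ (n + 1) * (k : ℝ) ^ τ := by gcongr
      _ = (k : ℝ) ^ τ := by rw [hh, one_mul]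
      _ ≤ _ := h4

/-- If `α` is irrational and not Liouville with exponent `p > 1`, then `|qα - m| ≥ c/q^{p-1}` for
all `q ≥ 1`, for some `c > 0`. -/
lemma dioph_of_not_liouvilleWith {α p : ℝ} (hα : Irrational α) (hp : ¬ LiouvilleWith p α) :
    0 ≤ p - 1 ∧ ∃ c : ℝ, 0 < c ∧ ∀ (q : ℕ) (m : ℤ), 1 ≤ q →
      c / (q : ℝ) ^ (p - 1) ≤ |(q : ℝ) * α - m| := by
  have hp1 : 0 ≤ p - 1 := by
    by_contra h
    exact hp ((liouvilleWith_one α).mono (by linarith))
  refine ⟨hp1, ?_⟩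
  unfold LiouvilleWith at hp
  push Not at hp
  have h1 := hp 1
  obtain ⟨N, hN⟩ := eventually_atTop.1 h1
  -- a lower bound for the finitely many small `q`
  have hsmall : ∀ M : ℕ, ∃ c : ℝ, 0 < c ∧ ∀ (q : ℕ) (m : ℤ), 1 ≤ q → q < M →
      c ≤ |(q : ℝ) * α - m| := by
    intro M
    induction M with
    | zero => exact ⟨1, one_pos, fun q m _ h => absurd h (by omega)⟩
    | succ M ih =>
      obtain ⟨c, hc, h⟩ := ih
      rcases Nat.eq_zero_or_pos M with h0 | h0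
      · exact ⟨1, one_pos, fun q m h1 h2 => absurd h2 (by omega)⟩
      · have hpos : 0 < |(M : ℝ) * α - round ((M : ℝ) * α)| := by
          rw [abs_pos, sub_ne_zero]
          exact (hα.natCast_mul h0.ne').ne_int _
        refine ⟨min c |(M : ℝ) * α - round ((M : ℝ) * α)|, lt_min hc hpos, fun q m h1 h2 => ?_⟩
        rcases Nat.lt_succ_iff_lt_or_eq.1 h2 with h3 | h3
        · exact (min_le_left _ _).trans (h q m h1 h3)
        · rw [h3]
          exact (min_le_right _ _).trans (round_le _ m)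
  obtain ⟨c, hc, h⟩ := hsmall N
  refine ⟨min c 1, lt_min hc one_pos, fun q m hq => ?_⟩
  have hq' : (1 : ℝ) ≤ q := by exact_mod_cast hq
  have hq1 : 1 ≤ (q : ℝ) ^ (p - 1) := Real.one_le_rpow hq' hp1
  rcases lt_or_ge q N with h3 | h3
  · calc min c 1 / (q : ℝ) ^ (p - 1) ≤ min c 1 := div_le_self (lt_min hc one_pos).le hq1
      _ ≤ c := min_le_left _ _
      _ ≤ _ := h q m hq h3
  · have h4 := hN q h3
    have h5 := h4 m (by
      intro h
      have hq0 : (q : ℝ) ≠ 0 := by positivity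
      have : (q : ℝ) * α = m := by rw [h]; field_simp
      exact (hα.natCast_mul (by omega)).ne_int _ this)
    have hq0 : (0 : ℝ) < q := by positivity
    have h6 : |(q : ℝ) * α - m| = q * |α - m / q| := by
      rw [← abs_of_pos hq0, ← abs_mul, abs_of_pos hq0]
      congr 1
      field_simp
    rw [h6]
    calc min c 1 / (q : ℝ) ^ (p - 1) ≤ 1 / (q : ℝ) ^ (p - 1) := by
          gcongr; exact min_le_right _ _
      _ = q * (1 / (q : ℝ) ^ p) := by
          rw [Real.rpow_sub hq0, Real.rpow_one]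
          field_simp
      _ ≤ _ := by gcongr

end Pool.Agent.KS6_84.BesH
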