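import Pool.Agent.KS6_84.BesH.Freq
import Pool.Graph.R_seed8.V11279.BesT

/-! Besicovitch cylindrical transformations over every irrational rotation, with Hölder exponents
governed by the Diophantine exponent. -/

open Filter Set Topology
open scoped NNReal
open Pool.Agent.V11279.BesT

namespace Pool.Agent.KS6_84.BesH

noncomputable section

/-- `cos (2π x)` on the circle. -/
def cosT (x : UnitAddCircle) : ℝ := (AddCircle.toCircle x : ℂ).re

lemma cosT_coe (t : ℝ) : cosT (t : UnitAddCircle) = Real.cos (2 * Real.pi * t) := by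
  unfold cosT
  have := fourier_coe_apply (T := (1 : ℝ)) (n := 1) (x := t)
  rw [fourier_one] at this
  rw [this, show (2 * Real.pi * Complex.I * ((1 : ℤ) : ℂ) * (t : ℂ) / ((1 : ℝ) : ℂ))
    = ((2 * Real.pi * t : ℝ) : ℂ) * Complex.I by push_cast; ring, Complex.exp_ofReal_mul_I_re]

lemma zsmul_coe (k : ℤ) (t : ℝ) : k • (t : UnitAddCircle) = ((k * t : ℝ) : UnitAddCircle) := by
  rw [← zsmul_eq_mul]; rfl

lemma int_coe (k : ℤ) : ((k : ℝ) : UnitAddCircle) = 0 := by
  rw [AddCircle.coe_eq_zero_iff]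
  exact ⟨k, by simp⟩

lemma exists_rep (x : UnitAddCircle) : ∃ t : ℝ, (t : UnitAddCircle) = x ∧ |t| = ‖x‖ := by
  induction x using QuotientAddGroup.induction_on with
  | H s =>
    refine ⟨s - round s, ?_, ?_⟩
    · have : ((s - (round s : ℝ) : ℝ) : UnitAddCircle)
          = (s : UnitAddCircle) - ((round s : ℝ) : UnitAddCircle) := rfl
      rw [this, int_coe, sub_zero]
    · exact (UnitAddCircle.norm_eq).symm

lemma cos_sub_le (u v : ℝ) : |Real.cos u - Real.cos v| ≤ |u - v| := by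
  rw [Real.cos_sub_cos, abs_mul, abs_mul]
  have h1 := Real.abs_sin_le_one ((u + v) / 2)
  have h2 : |Real.sin ((u - v) / 2)| ≤ |(u - v) / 2| := Real.abs_sin_le_abs
  rw [abs_div] at h2
  simp only [abs_neg, Nat.abs_ofNat] at *
  have h3 := abs_nonneg (Real.sin ((u + v) / 2))
  have h4 := abs_nonneg (Real.sin ((u - v) / 2))
  nlinarith [abs_nonneg (u - v)]

/-- A rotation number with its frequencies. -/
structure Data where
  /-- the rotation number -/
  α : ℝ
  irr : Irrational α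
  /-- the frequencies -/
  Q : ℕ → ℕ
  /-- the signed distances -/
  e : ℕ → ℝ
  /-- the nearest integers -/
  m : ℕ → ℤ
  pos : ∀ n, 0 < Q n
  eq : ∀ n, (Q n : ℝ) * α = e n + m n
  lt : ∀ n, (1 / 2 : ℝ) ^ (n + 2) < |e n|
  le : ∀ n, |e n| ≤ (1 / 2 : ℝ) ^ (n + 1)
  bound : ∀ n (τ c : ℝ), 0 < c → 0 ≤ τ →
    (∀ (q : ℕ) (m : ℤ), 1 ≤ q → c / (q : ℝ) ^ τ ≤ |(q : ℝ) * α - m|) →
      (Q n : ℝ) ≤ ((2 : ℝ) ^ τ) ^ (n + 1) / c

lemma exists_data {α : ℝ} (hα : Irrational α) : ∃ D : Data, D.α = α := by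
  choose Q e m h using exists_freq hα
  exact ⟨⟨α, hα, Q, e, m, fun n => (h n).1, fun n => (h n).2.1, fun n => (h n).2.2.1,
    fun n => (h n).2.2.2.1, fun n => (h n).2.2.2.2⟩, rfl⟩

variable (D : Data)

/-- The rotation number on the circle. -/
def Data.a : UnitAddCircle := (D.α : UnitAddCircle)

lemma Q_smul (k : ℕ) (m : ℤ) : (D.Q k : ℤ) • (m • D.a) = ((m * D.e k : ℝ) : UnitAddCircle) := by
  unfold Data.a
  rw [zsmul_coe, zsmul_coe]
  have h1 : ((D.Q k : ℤ) : ℝ) * (m * D.α) = m * D.e k + ((m * D.m k : ℤ) : ℝ) := by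
    push_cast
    linear_combination (m : ℝ) * D.eq k
  rw [h1, AddCircle.coe_add, int_coe, add_zero]

lemma e_abs_le (k : ℕ) : |D.e k| ≤ (1 / 2 : ℝ) ^ k :=
  (D.le k).trans (pow_le_pow_of_le_one (by norm_num) (by norm_num) (by omega))

/-- the `k`-th term of the `m`-th Birkhoff sum -/
def term (k : ℕ) (m : ℤ) (x : UnitAddCircle) : ℝ :=
  (k : ℝ) * (cosT ((D.Q k : ℤ) • x) - cosT ((D.Q k : ℤ) • (x + m • D.a)))

lemma term_abs_le (k : ℕ) (m : ℤ) (x : UnitAddCircle) :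
    |term D k m x| ≤ 2 * Real.pi * |(m : ℝ)| * ((k : ℝ) * (1 / 2) ^ k) := by
  obtain ⟨t, ht, -⟩ := exists_rep ((D.Q k : ℤ) • x)
  unfold term
  rw [smul_add, Q_smul, ← ht, ← AddCircle.coe_add, cosT_coe, cosT_coe, abs_mul, Nat.abs_cast]
  have h := cos_sub_le (2 * Real.pi * t) (2 * Real.pi * (t + m * D.e k))
  have h2 : |2 * Real.pi * t - 2 * Real.pi * (t + m * D.e k)|
      = 2 * Real.pi * (|(m : ℝ)| * |D.e k|) := by
    rw [show 2 * Real.pi * t - 2 * Real.pi * (t + m * D.e k)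
      = -(2 * Real.pi * (m * D.e k)) by ring, abs_neg, abs_mul, abs_mul (m : ℝ),
      abs_of_pos Real.two_pi_pos]
  rw [h2] at h
  have h3 := e_abs_le D k
  calc (k : ℝ) * _ ≤ k * (2 * Real.pi * (|(m : ℝ)| * |D.e k|)) := by gcongr
    _ ≤ k * (2 * Real.pi * (|(m : ℝ)| * (1 / 2) ^ k)) := by
      have := Real.pi_pos
      gcongr
    _ = _ := by ring

lemma summable_nr : Summable (fun n : ℕ => (n : ℝ) * (1 / 2 : ℝ) ^ n) := by
  have := summable_pow_mul_geometric_of_norm_lt_one (R := ℝ) 1 (r := 1 / 2)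
    (by rw [Real.norm_eq_abs]; norm_num [abs_of_pos])
  simpa using this

lemma summable_term (m : ℤ) (x : UnitAddCircle) : Summable (fun k => term D k m x) := by
  apply Summable.of_norm_bounded (summable_nr.mul_left (2 * Real.pi * |(m : ℝ)|))
  intro k
  exact term_abs_le D k m x

/-- The function `∑ k (cos (2π Q_k x) - cos (2π Q_k (x + α)))`. -/
def f (x : UnitAddCircle) : ℝ := ∑' k, term D k 1 x

lemma S_eq (m : ℤ) : ∀ x, S D.a (f D) m x = ∑' k, term D k m x := by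
  have hstep : ∀ (m : ℤ) (x : UnitAddCircle), ∑' k, term D k (m + 1) x
      = ∑' k, term D k m x + f D (x + m • D.a) := by
    intro m x
    unfold f
    rw [← (summable_term D m x).tsum_add (summable_term D 1 _)]
    congr 1
    ext n
    unfold term
    rw [add_smul m 1 D.a, one_smul, add_assoc]
    ring
  induction m using Int.induction_on with
  | zero => intro x; simp [S_zero, term]
  | succ m ih =>
    intro x
    rw [hstep, ← ih, add_comm (m : ℤ) 1, S_add, S_one]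
  | pred m ih =>
    intro x
    have h1 := hstep (-(m : ℤ) - 1) x
    have h2 := S_add (a := D.a) (φ := f D) 1 (-(m : ℤ) - 1) x
    rw [S_one] at h2
    rw [sub_add_cancel] at h1
    rw [show (1 : ℤ) + (-(m : ℤ) - 1) = -(m : ℤ) by ring, ih] at h2
    linarith

lemma term_zero (k : ℕ) (m : ℤ) :
    term D k m 0 = k * (1 - Real.cos (2 * Real.pi * (|(m : ℝ)| * |D.e k|))) := by
  unfold term
  have h0 : (D.Q k : ℤ) • (0 : UnitAddCircle) = ((0 : ℝ) : UnitAddCircle) := by simp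
  rw [zero_add, h0, Q_smul, cosT_coe, cosT_coe, ← Real.cos_abs (2 * Real.pi * (m * _)), abs_mul,
    abs_of_pos Real.two_pi_pos, abs_mul (m : ℝ)]
  simp

lemma term_zero_nonneg (k : ℕ) (m : ℤ) : 0 ≤ term D k m 0 := by
  rw [term_zero]
  have := Real.cos_le_one (2 * Real.pi * (|(m : ℝ)| * |D.e k|))
  have h0 : (0 : ℝ) ≤ k := Nat.cast_nonneg k
  nlinarith

/-- the gain -/
def κ : ℝ := 1 - Real.cos (Real.pi / 4)

lemma κ_pos : 0 < κ := by
  unfold κ
  have hpi := Real.pi_pos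
  have : Real.cos (Real.pi / 4) < Real.cos 0 := by
    apply Real.cos_lt_cos_of_nonneg_of_le_pi le_rfl
    · linarith
    · positivity
  rw [Real.cos_zero] at this
  linarith

lemma exists_good (m : ℤ) (hm : m ≠ 0) : ∃ N : ℕ, |(m : ℝ)| * (1 / 2) ^ N ≤ 1 ∧
    (N : ℝ) * κ ≤ S D.a (f D) m 0 := by
  have hm1 : (1 : ℝ) ≤ |(m : ℝ)| := by
    have := Int.one_le_abs hm
    exact_mod_cast this
  have hex : ∃ N : ℕ, |(m : ℝ)| * (1 / 2) ^ N ≤ 1 := by
    have h := (tendsto_pow_atTop_nhds_zero_of_lt_one (r := (1 / 2 : ℝ)) (by norm_num)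
      (by norm_num)).const_mul |(m : ℝ)|
    rw [mul_zero] at h
    have := h.eventually (ge_mem_nhds (show (0 : ℝ) < 1 by norm_num))
    exact this.exists
  classical
  set N := Nat.find hex with hN
  have h1 : |(m : ℝ)| * (1 / 2) ^ N ≤ 1 := Nat.find_spec hex
  have h2 : 1 / 2 ≤ |(m : ℝ)| * (1 / 2) ^ N := by
    rcases Nat.eq_zero_or_pos N with h0 | h0
    · rw [h0, pow_zero]; linarith
    · obtain ⟨k, hk⟩ := Nat.exists_eq_succ_of_ne_zero h0.ne'
      have h3 := Nat.find_min hex (m := k) (by omega)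
      push Not at h3
      rw [hk, pow_succ]
      nlinarith
  refine ⟨N, h1, ?_⟩
  have e1 := D.lt N
  have e2 := D.le N
  rw [pow_succ, pow_succ] at e1
  rw [pow_succ] at e2
  have h5 : 1 / 8 ≤ |(m : ℝ)| * |D.e N| := by
    have : |(m : ℝ)| * ((1 / 2) ^ N * (1 / 2) * (1 / 2)) ≤ |(m : ℝ)| * |D.e N| :=
      mul_le_mul_of_nonneg_left e1.le (abs_nonneg _)
    linarith
  have h6 : |(m : ℝ)| * |D.e N| ≤ 1 / 2 := by
    have : |(m : ℝ)| * |D.e N| ≤ |(m : ℝ)| * ((1 / 2) ^ N * (1 / 2)) :=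
      mul_le_mul_of_nonneg_left e2 (abs_nonneg _)
    linarith
  have hcos : Real.cos (2 * Real.pi * (|(m : ℝ)| * |D.e N|)) ≤ Real.cos (Real.pi / 4) := by
    have hpi := Real.pi_pos
    apply Real.cos_le_cos_of_nonneg_of_le_pi
    · positivity
    · nlinarith
    · nlinarith
  rw [S_eq]
  calc (N : ℝ) * κ ≤ term D N m 0 := by
        rw [term_zero]
        have h0 : (0 : ℝ) ≤ N := Nat.cast_nonneg N
        unfold κ
        nlinarith
    _ ≤ ∑' n, term D n m 0 := (summable_term D m 0).le_tsum N (fun n _ => term_zero_nonneg D n m)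

lemma tendsto_S : Tendsto (fun m : ℤ => S D.a (f D) m 0) cofinite atTop := by
  rw [tendsto_atTop]
  intro K
  rw [eventually_cofinite]
  have hκ := κ_pos
  set L : ℕ := ⌈K / κ⌉₊ with hL
  apply (Set.finite_Icc (-(2 ^ L) : ℤ) (2 ^ L)).subset
  intro m hm
  rw [mem_Icc, ← abs_le]
  by_cases hm0 : m = 0
  · rw [hm0, abs_zero]; positivity
  obtain ⟨N, h1, h2⟩ := exists_good D m hm0
  have hm' : ¬ K ≤ S D.a (f D) m 0 := hm
  have hNK : (N : ℝ) < K / κ := by
    rw [lt_div_iff₀ hκ]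
    linarith [not_le.1 hm']
  have hNL : N ≤ L := by
    have : (N : ℝ) ≤ L := hNK.le.trans (Nat.le_ceil _)
    exact_mod_cast this
  have h3 : |(m : ℝ)| ≤ 2 ^ N := by
    have hh : (1 / 2 : ℝ) ^ N * 2 ^ N = 1 := by rw [← mul_pow]; norm_num
    calc |(m : ℝ)| = |(m : ℝ)| * (1 / 2) ^ N * 2 ^ N := by rw [mul_assoc, hh, mul_one]
      _ ≤ 1 * 2 ^ N := by gcongr
      _ = _ := one_mul _
  have h4 : (2 : ℝ) ^ N ≤ 2 ^ L := pow_le_pow_right₀ (by norm_num) hNL
  have h5 : ((|m| : ℤ) : ℝ) ≤ (2 : ℝ) ^ L := by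
    push_cast
    exact h3.trans h4
  exact_mod_cast h5

/-! ### Hölder continuity -/

/-- Lipschitz bound of a term, with the right constant. -/
lemma term_sub_le (k : ℕ) (x y : UnitAddCircle) :
    |term D k 1 x - term D k 1 y| ≤
      (k : ℝ) * (1 / 2) ^ k * (4 * Real.pi ^ 2 * (D.Q k * dist x y)) := by
  obtain ⟨s, hs, -⟩ := exists_rep y
  obtain ⟨d, hd, hd'⟩ := exists_rep (x - y)
  have hx : x = ((s + d : ℝ) : UnitAddCircle) := by
    rw [AddCircle.coe_add, hs, hd]; abel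
  have key : ∀ t : ℝ, term D k 1 (t : UnitAddCircle) =
      (2 * k * Real.sin (Real.pi * D.e k)) *
        Real.sin (2 * Real.pi * (D.Q k * t) + Real.pi * D.e k) := by
    intro t
    unfold term
    rw [smul_add, Q_smul, zsmul_coe, ← AddCircle.coe_add, cosT_coe, cosT_coe, Real.cos_sub_cos]
    have e1 : (2 * Real.pi * (((D.Q k : ℤ) : ℝ) * t) +
        2 * Real.pi * (((D.Q k : ℤ) : ℝ) * t + ((1 : ℤ) : ℝ) * D.e k)) / 2
        = 2 * Real.pi * (D.Q k * t) + Real.pi * D.e k := by push_cast; ring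
    have e2 : (2 * Real.pi * (((D.Q k : ℤ) : ℝ) * t) -
        2 * Real.pi * (((D.Q k : ℤ) : ℝ) * t + ((1 : ℤ) : ℝ) * D.e k)) / 2
        = -(Real.pi * D.e k) := by push_cast; ring
    rw [e1, e2, Real.sin_neg]
    ring
  rw [hx, ← hs, key, key, ← mul_sub, abs_mul, abs_mul, abs_mul, Nat.abs_cast, abs_two]
  have h1 : |Real.sin (Real.pi * D.e k)| ≤ Real.pi * (1 / 2) ^ k := by
    refine Real.abs_sin_le_abs.trans ?_
    rw [abs_mul, abs_of_pos Real.pi_pos]
    exact mul_le_mul_of_nonneg_left (e_abs_le D k) Real.pi_pos.le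
  have h2 : |Real.sin (2 * Real.pi * (D.Q k * (s + d)) + Real.pi * D.e k) -
      Real.sin (2 * Real.pi * (D.Q k * s) + Real.pi * D.e k)| ≤
      2 * Real.pi * (D.Q k * dist x y) := by
    have h3 := cos_sub_le
      (2 * Real.pi * (D.Q k * (s + d)) + Real.pi * D.e k - Real.pi / 2)
      (2 * Real.pi * (D.Q k * s) + Real.pi * D.e k - Real.pi / 2)
    rw [Real.cos_sub_pi_div_two, Real.cos_sub_pi_div_two] at h3
    refine h3.trans (le_of_eq ?_)
    rw [show 2 * Real.pi * (D.Q k * (s + d)) + Real.pi * D.e k - Real.pi / 2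
      - (2 * Real.pi * (D.Q k * s) + Real.pi * D.e k - Real.pi / 2)
      = 2 * Real.pi * (D.Q k * d) by ring, abs_mul (2 * Real.pi), abs_mul (D.Q k : ℝ),
      Nat.abs_cast, abs_of_pos Real.two_pi_pos, hd', dist_eq_norm]
  rw [← hx, hs]
  calc 2 * (k : ℝ) * |Real.sin (Real.pi * D.e k)| * _
      ≤ 2 * (k : ℝ) * (Real.pi * (1 / 2) ^ k) * (2 * Real.pi * (D.Q k * dist x y)) := by
        have := Real.pi_pos
        gcongr
    _ = _ := by ring

/-- Hölder bound for a term. -/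
lemma term_holder (k : ℕ) (γ : ℝ) (h0 : 0 ≤ γ) (h1 : γ ≤ 1) (x y : UnitAddCircle) :
    |term D k 1 x - term D k 1 y| ≤
      (4 * Real.pi ^ 2) * ((k : ℝ) * (1 / 2) ^ k * (D.Q k : ℝ) ^ γ) * dist x y ^ γ := by
  have hpi : (1 : ℝ) ≤ Real.pi := by linarith [Real.pi_gt_three]
  have e1 := term_sub_le D k x y
  have e2 : |term D k 1 x - term D k 1 y| ≤ (k : ℝ) * (1 / 2) ^ k * (4 * Real.pi ^ 2 * 1) := by
    have a1 := term_abs_le D k 1 x
    have a2 := term_abs_le D k 1 y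
    have a3 := abs_sub (term D k 1 x) (term D k 1 y)
    simp only [Int.cast_one, abs_one, mul_one] at a1 a2
    have h5 : (0 : ℝ) ≤ (k : ℝ) * (1 / 2) ^ k := by positivity
    have h6 : 4 * Real.pi * ((k : ℝ) * (1 / 2) ^ k) ≤
        4 * Real.pi ^ 2 * ((k : ℝ) * (1 / 2) ^ k) := by
      apply mul_le_mul_of_nonneg_right _ h5
      nlinarith
    linarith
  have hmin : |term D k 1 x - term D k 1 y| ≤
      (k : ℝ) * (1 / 2) ^ k * (4 * Real.pi ^ 2 * min (D.Q k * dist x y) 1) := by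
    rcases min_choice (D.Q k * dist x y) 1 with h | h
    · rw [h]; exact e1
    · rw [h]; exact e2
  have hpow : min ((D.Q k : ℝ) * dist x y) 1 ≤ ((D.Q k : ℝ) * dist x y) ^ γ := by
    have hnn : 0 ≤ (D.Q k : ℝ) * dist x y := by positivity
    rcases le_total 1 ((D.Q k : ℝ) * dist x y) with h | h
    · rw [min_eq_right h]
      exact Real.one_le_rpow h h0
    · rw [min_eq_left h]
      rcases hnn.eq_or_lt with h' | h'
      · rw [← h']
        exact Real.rpow_nonneg le_rfl _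
      · calc (D.Q k : ℝ) * dist x y = ((D.Q k : ℝ) * dist x y) ^ (1 : ℝ) :=
              (Real.rpow_one _).symm
          _ ≤ _ := Real.rpow_le_rpow_of_exponent_ge h' h h1
  rw [Real.mul_rpow (by positivity) dist_nonneg] at hpow
  calc |term D k 1 x - term D k 1 y| ≤ (k : ℝ) * (1 / 2) ^ k * (4 * Real.pi ^ 2 *
        ((D.Q k : ℝ) ^ γ * dist x y ^ γ)) := by
        refine hmin.trans ?_
        gcongr
    _ = _ := by ring

lemma holder_of_summable (γ : ℝ≥0) (hγ : γ ≤ 1)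
    (hsum : Summable (fun k : ℕ => (k : ℝ) * (1 / 2) ^ k * (D.Q k : ℝ) ^ (γ : ℝ))) :
    ∃ C : ℝ≥0, HolderWith C γ (f D) := by
  have hγ' : (γ : ℝ) ≤ 1 := by exact_mod_cast hγ
  set C : ℝ := 4 * Real.pi ^ 2 * ∑' k : ℕ, (k : ℝ) * (1 / 2) ^ k * (D.Q k : ℝ) ^ (γ : ℝ) with hC
  have hC0 : 0 ≤ C := by
    have : 0 ≤ ∑' k : ℕ, (k : ℝ) * (1 / 2) ^ k * (D.Q k : ℝ) ^ (γ : ℝ) :=
      tsum_nonneg fun n => by positivity
    positivity
  refine ⟨C.toNNReal, ?_⟩
  have hreal : ∀ x y, |f D x - f D y| ≤ C * dist x y ^ (γ : ℝ) := by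
    intro x y
    unfold f
    rw [← (summable_term D 1 x).tsum_sub (summable_term D 1 y)]
    have hbound := fun k => term_holder D k γ γ.2 hγ' x y
    have hs2 : Summable fun k : ℕ =>
        (4 * Real.pi ^ 2) * ((k : ℝ) * (1 / 2) ^ k * (D.Q k : ℝ) ^ (γ : ℝ)) *
          dist x y ^ (γ : ℝ) :=
      (hsum.mul_left _).mul_right _
    have := tsum_of_norm_bounded hs2.hasSum (f := fun k => term D k 1 x - term D k 1 y) hbound
    rw [Real.norm_eq_abs] at this
    refine this.trans (le_of_eq ?_)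
    rw [tsum_mul_right, tsum_mul_left]
  intro x y
  rw [edist_dist, edist_dist, Real.dist_eq, ENNReal.ofReal_rpow_of_nonneg dist_nonneg γ.coe_nonneg]
  change _ ≤ ENNReal.ofReal C * _
  rw [← ENNReal.ofReal_mul hC0]
  exact ENNReal.ofReal_le_ofReal (hreal x y)

/-- Hölder continuity from a Diophantine condition. -/
lemma holder_f {τ c : ℝ} (hτ : 0 ≤ τ) (hc : 0 < c)
    (hd : ∀ (q : ℕ) (m : ℤ), 1 ≤ q → c / (q : ℝ) ^ τ ≤ |(q : ℝ) * D.α - m|)
    (γ : ℝ≥0) (hγ1 : γ ≤ 1) (hγ : (γ : ℝ) * τ < 1) : ∃ C : ℝ≥0, HolderWith C γ (f D) := by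
  refine holder_of_summable D γ hγ1 ?_
  set r : ℝ := (1 / 2) * ((2 : ℝ) ^ τ) ^ (γ : ℝ) with hr
  have hr0 : 0 < r := by positivity
  have hr1 : r < 1 := by
    rw [hr, ← Real.rpow_mul (by norm_num), mul_comm τ]
    have : (2 : ℝ) ^ ((γ : ℝ) * τ) < 2 ^ (1 : ℝ) :=
      Real.rpow_lt_rpow_of_exponent_lt (by norm_num) hγ
    rw [Real.rpow_one] at this
    linarith
  have hsum : Summable (fun n : ℕ => (n : ℝ) * r ^ n) := by
    have := summable_pow_mul_geometric_of_norm_lt_one (R := ℝ) 1 (r := r)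
      (by rw [Real.norm_eq_abs, abs_of_pos hr0]; exact hr1)
    simpa using this
  refine Summable.of_nonneg_of_le (fun k => by positivity) (fun k => ?_)
    (hsum.mul_left (((2 : ℝ) ^ τ / c) ^ (γ : ℝ)))
  have h1 : (D.Q k : ℝ) ^ (γ : ℝ) ≤ (((2 : ℝ) ^ τ) ^ (k + 1) / c) ^ (γ : ℝ) :=
    Real.rpow_le_rpow (by positivity) (D.bound k τ c hc hτ hd) γ.coe_nonneg
  have h2 : (((2 : ℝ) ^ τ) ^ (k + 1) / c) ^ (γ : ℝ) =
      (((2 : ℝ) ^ τ) ^ (γ : ℝ)) ^ k * ((2 : ℝ) ^ τ / c) ^ (γ : ℝ) := by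
    have h3 : ((((2 : ℝ) ^ τ) ^ k : ℝ)) ^ (γ : ℝ) = (((2 : ℝ) ^ τ) ^ (γ : ℝ)) ^ k := by
      rw [← Real.rpow_natCast, ← Real.rpow_natCast, ← Real.rpow_mul (by positivity),
        ← Real.rpow_mul (x := (2 : ℝ) ^ τ) (by positivity), mul_comm (k : ℝ)]
    rw [pow_succ, mul_div_assoc, Real.mul_rpow (by positivity) (by positivity), h3]
  calc (k : ℝ) * (1 / 2) ^ k * (D.Q k : ℝ) ^ (γ : ℝ)
      ≤ (k : ℝ) * (1 / 2) ^ k * ((((2 : ℝ) ^ τ) ^ (γ : ℝ)) ^ k *
        ((2 : ℝ) ^ τ / c) ^ (γ : ℝ)) := by rw [← h2]; gcongr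
    _ = _ := by rw [hr, mul_pow]; ring

lemma continuous_f : Continuous (f D) := by
  unfold f
  refine continuous_tsum
    (u := fun k : ℕ => 2 * Real.pi * |((1 : ℤ) : ℝ)| * ((k : ℝ) * (1 / 2) ^ k))
    (fun k => ?_) (summable_nr.mul_left _) (fun k x => term_abs_le D k 1 x)
  unfold term cosT
  have h : ∀ n : ℤ, Continuous fun x : UnitAddCircle => n • x := fun n => continuous_zsmul n
  have hc : Continuous fun x : UnitAddCircle => ((AddCircle.toCircle x : Circle) : ℂ).re :=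
    Complex.continuous_re.comp (continuous_induced_dom.comp AddCircle.continuous_toCircle)
  exact continuous_const.mul ((hc.comp (h _)).sub (hc.comp ((h _).comp (continuous_add_const _))))

lemma Q_injective : Function.Injective D.Q := by
  have hlt : ∀ i j, i < j → |D.e j| < |D.e i| := by
    intro i j hij
    calc |D.e j| ≤ (1 / 2 : ℝ) ^ (j + 1) := D.le j
      _ ≤ (1 / 2 : ℝ) ^ (i + 2) := pow_le_pow_of_le_one (by norm_num) (by norm_num) (by omega)
      _ < _ := D.lt i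
  have hhalf : ∀ i, |D.e i| ≤ 1 / 2 := fun i => (D.le i).trans (by
    rw [pow_succ]
    have : (1 / 2 : ℝ) ^ i ≤ 1 := pow_le_one₀ (by norm_num) (by norm_num)
    linarith)
  have key : ∀ i j, i < j → D.Q i ≠ D.Q j := by
    intro i j hij h
    have h1 := D.eq i
    have h2 := D.eq j
    rw [h] at h1
    have h3 : D.e i - D.e j = ((D.m j - D.m i : ℤ) : ℝ) := by push_cast; linarith
    have h4 := hlt i j hij
    have h5 := hhalf i
    have h6 := abs_sub (D.e i) (D.e j)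
    have h7 : |((D.m j - D.m i : ℤ) : ℝ)| < 1 := by rw [← h3]; linarith
    have h8 : D.m j - D.m i = 0 := by
      rw [← Int.cast_abs] at h7
      have : |D.m j - D.m i| < 1 := by exact_mod_cast h7
      exact Int.abs_lt_one_iff.1 this
    rw [h8, Int.cast_zero, sub_eq_zero] at h3
    rw [h3] at h4
    exact lt_irrefl _ h4
  intro i j h
  rcases lt_trichotomy i j with h1 | h1 | h1
  · exact absurd h (key i j h1)
  · exact h1
  · exact absurd h.symm (key j i h1)

theorem isBesicovitch : IsBesicovitch D.a (f D) := by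
  have hdense : DenseRange (fun n : ℤ => n • D.a) := by
    have := (AddCircle.denseRange_zsmul_coe_iff (p := (1 : ℝ)) (a := D.α)).2
      (by simpa using D.irr)
    exact this
  have hinj1 : Function.Injective fun j : ℕ => (D.Q j : ℤ) := fun i j h =>
    Q_injective D (Int.ofNat_inj.1 h)
  have hinj2 : Function.Injective fun j : ℕ => -(D.Q j : ℤ) := fun i j h =>
    hinj1 (neg_injective h)
  have hpow : Tendsto (fun j : ℕ => (1 / 2 : ℝ) ^ j) atTop (𝓝 0) :=
    tendsto_pow_atTop_nhds_zero_of_lt_one (by norm_num) (by norm_num)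
  refine isBesicovitch_of (continuous_f D) hdense (tendsto_S D) (fun j => (D.Q j : ℤ))
    (fun j t => ((-(t * D.e j) : ℝ) : UnitAddCircle)) ?_ ?_ ?_ ?_ ?_ ?_
  · rw [← Nat.cofinite_eq_atTop]; exact hinj1.tendsto_cofinite
  · rw [← Nat.cofinite_eq_atTop]; exact hinj2.tendsto_cofinite
  · intro j
    exact (AddCircle.continuous_mk' (1 : ℝ)).comp (by fun_prop)
  · intro j
    simp
  · intro j
    have := Q_smul D j 1
    rw [one_smul] at this
    rw [this, ← AddCircle.coe_neg]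
    simp
  · intro t ht
    have h0 : Tendsto (fun j => -(t j * D.e j)) atTop (𝓝 0) := by
      apply squeeze_zero_norm' _ hpow
      filter_upwards [ht] with j hj
      rw [norm_neg, norm_mul, Real.norm_eq_abs (t j), abs_of_nonneg hj.1, Real.norm_eq_abs]
      exact (mul_le_of_le_one_left (abs_nonneg _) hj.2).trans (e_abs_le D j)
    have h : Tendsto (fun j => ((-(t j * D.e j) : ℝ) : UnitAddCircle)) atTop
        (𝓝 ((0 : ℝ) : UnitAddCircle)) :=
      ((AddCircle.continuous_mk' (1 : ℝ)).tendsto 0).comp h0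
    exact h

end

end Pool.Agent.KS6_84.BesH
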